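import Pool.Agent.H103R3.Welch
import Pool.Agent.Y342.SK.EtfMain

/-!
# Real pairs `(N, d) = (w + 1, (w + 1) / 2)`, `w = v ^ 2 ^ j`, attaining the Welch bound

There is a constant `C` such that for all natural numbers `n`, `v`, `t`, `j`, `d` with `v ≤ 2 ↑↑ n`
(the power tower of `n` twos), `t ≥ 2 ^ C ^ (n + 1)`, `2 ^ t ∣ v + 1`, `j ≥ 1` and
`2 d = v ^ 2 ^ j + 1`, the least coherence of a normalized frame of `2 d` vectors in `ℝ ^ d` is the
Welch bound.
-/

namespace Pool.Agent.Results.MP_3de5be_an.RealConferencePairs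

/-- The coherence of a finite real system: the largest modulus of an inner product of two members. -/
noncomputable def coherence {N d : ℕ} (g : Fin N → EuclideanSpace ℝ (Fin d)) : ℝ :=
  ⨆ p : {p : Fin N × Fin N // p.1 ≠ p.2}, |inner ℝ (g p.1.1) (g p.1.2)|

/-- `c^frame_ℝ(N, d)`: the infimum of the coherences of the normalized frames of `N` vectors in
`ℝ^d`. -/
noncomputable def cFrame (N d : ℕ) : ℝ :=
  sInf {M : ℝ | ∃ g : Fin N → EuclideanSpace ℝ (Fin d), (∀ k, ‖g k‖ = 1) ∧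
    Submodule.span ℝ (Set.range g) = ⊤ ∧ M = coherence g}

theorem le_coherence {N d : ℕ} (g : Fin N → EuclideanSpace ℝ (Fin d)) (k l : Fin N) (h : k ≠ l) :
    |inner ℝ (g k) (g l)| ≤ coherence g :=
  le_ciSup (f := fun p : {p : Fin N × Fin N // p.1 ≠ p.2} => |inner ℝ (g p.1.1) (g p.1.2)|)
    (Set.finite_range _).bddAbove ⟨(k, l), h⟩

/-- the Welch bound for real systems, from the complex one -/
theorem welch_real {N d : ℕ} (hd : 0 < d) (hN : 2 ≤ N) (hdN : d ≤ N)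
    (g : Fin N → EuclideanSpace ℝ (Fin d)) (hg : ∀ k, ‖g k‖ = 1) :
    Real.sqrt (((N : ℝ) - d) / (d * ((N : ℝ) - 1))) ≤ coherence g := by
  classical
  by_contra hcon
  push Not at hcon
  let x : Fin N → EuclideanSpace ℂ (Fin d) := fun i => WithLp.toLp 2 fun a => ((g i a : ℝ) : ℂ)
  have hx : ∀ i j, inner ℂ (x i) (x j) = ((inner ℝ (g i) (g j) : ℝ) : ℂ) := by
    intro i j
    simp only [x, PiLp.inner_apply]
    push_cast
    refine Finset.sum_congr rfl fun a _ => ?_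
    simp
  have hxn : ∀ i, ‖x i‖ = 1 := by
    intro i
    have h1 : ‖x i‖ ^ 2 = 1 ^ 2 := by
      rw [@norm_sq_eq_re_inner ℂ, hx]
      have h2 : ‖g i‖ ^ 2 = inner ℝ (g i) (g i) := by
        rw [real_inner_self_eq_norm_sq]
      rw [← h2, hg i]
      simp
    exact (sq_eq_sq₀ (norm_nonneg _) (by norm_num)).1 h1
  have hle : ∀ i j, i ≠ j → ‖inner ℂ (x i) (x j)‖ ≤ coherence g := by
    intro i j hij
    rw [hx, Complex.norm_real, Real.norm_eq_abs]
    exact le_coherence g i j hij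
  obtain ⟨h1, -⟩ := Pool.Agent.H103R3.welch hd hN x hxn hle hcon.le hdN
  have h2 := h1 ⟨0, by omega⟩ ⟨1, by omega⟩ (by simp)
  have h3 := hle ⟨0, by omega⟩ ⟨1, by omega⟩ (by simp)
  rw [h2] at h3
  linarith

theorem result : ∃ C : ℕ, ∀ n v t j d : ℕ, v ≤ (fun x : ℕ => 2 ^ x)^[n] 1 →
    2 ^ C ^ (n + 1) ≤ t → 2 ^ t ∣ v + 1 → 1 ≤ j → 2 * d = v ^ 2 ^ j + 1 →
    cFrame (2 * d) d = Real.sqrt ((((2 * d : ℕ) : ℝ) - d) / (d * (((2 * d : ℕ) : ℝ) - 1))) := by
  obtain ⟨C, _, h⟩ := Pool.Agent.Y342.SK.main_conf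
  refine ⟨C, fun n v t j d hv ht hd hj hM => ?_⟩
  obtain ⟨i, rfl⟩ : ∃ i, j = i + 1 := ⟨j - 1, by omega⟩
  obtain ⟨K, hK1, hK2, hK3, hK4⟩ := h n v t i hv ht hd
  have hd0 : 0 < d := by omega
  obtain ⟨f, hf1, hf2, hf3⟩ :=
    Pool.Agent.Y342.SK.etf_sym (𝕜 := ℝ) hd0 hM.symm K hK1 hK2 hK3 hK4
  let e : Fin (2 * d) ≃ Fin (v ^ 2 ^ (i + 1) + 1) := finCongr hM
  have hd0' : (1 : ℝ) ≤ d := by exact_mod_cast hd0
  have hval : 1 / Real.sqrt (((v ^ 2 ^ (i + 1) + 1 : ℕ) : ℝ) - 1) =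
      Real.sqrt ((((2 * d : ℕ) : ℝ) - d) / (d * (((2 * d : ℕ) : ℝ) - 1))) := by
    rw [← hM, ← Real.sqrt_one, ← Real.sqrt_div (by norm_num), Real.sqrt_one]
    congr 1
    push_cast
    have h1 : (2 * (d : ℝ) - 1) ≠ 0 := by linarith
    have h2 : (d : ℝ) ≠ 0 := by linarith
    rw [div_eq_div_iff h1 (mul_ne_zero h2 h1)]
    ring
  set w := Real.sqrt ((((2 * d : ℕ) : ℝ) - d) / (d * (((2 * d : ℕ) : ℝ) - 1))) with hw
  refine le_antisymm ?_ ?_
  · refine csInf_le ⟨w, ?_⟩ ⟨fun k => f (e k), fun k => hf1 _, ?_, ?_⟩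
    · rintro M ⟨g, hg, -, rfl⟩
      exact welch_real hd0 (by omega) (by omega) g hg
    · rw [← Submodule.orthogonal_eq_bot_iff, Submodule.eq_bot_iff]
      intro x hx
      have h1 : ∑ k, ‖inner ℝ (f k) x‖ ^ 2 = 0 := by
        rw [← e.sum_comp]
        refine Finset.sum_eq_zero fun k _ => ?_
        rw [(Submodule.mem_orthogonal _ x).1 hx _ (Submodule.subset_span ⟨k, rfl⟩)]
        simp
      rw [hf2] at h1
      have h2 : ‖x‖ ^ 2 = 0 := by linarith
      exact norm_eq_zero.1 (pow_eq_zero_iff (by norm_num) |>.1 h2)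
    · have hne : Nonempty {p : Fin (2 * d) × Fin (2 * d) // p.1 ≠ p.2} :=
        ⟨⟨(⟨0, by omega⟩, ⟨1, by omega⟩), by simp⟩⟩
      have h1 : ∀ p : {p : Fin (2 * d) × Fin (2 * d) // p.1 ≠ p.2},
          |inner ℝ (f (e p.1.1)) (f (e p.1.2))| = w := by
        intro p
        rw [← Real.norm_eq_abs, hf3 _ _ fun h' => p.2 (e.injective h'), hval]
      unfold coherence
      simp only [h1, ciSup_const]
  · refine le_csInf ⟨_, fun k => f (e k), fun k => hf1 _, ?_, rfl⟩ ?_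
    · rw [← Submodule.orthogonal_eq_bot_iff, Submodule.eq_bot_iff]
      intro x hx
      have h1 : ∑ k, ‖inner ℝ (f k) x‖ ^ 2 = 0 := by
        rw [← e.sum_comp]
        refine Finset.sum_eq_zero fun k _ => ?_
        rw [(Submodule.mem_orthogonal _ x).1 hx _ (Submodule.subset_span ⟨k, rfl⟩)]
        simp
      rw [hf2] at h1
      have h2 : ‖x‖ ^ 2 = 0 := by linarith
      exact norm_eq_zero.1 (pow_eq_zero_iff (by norm_num) |>.1 h2)
    · rintro M ⟨g, hg, -, rfl⟩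
      exact welch_real hd0 (by omega) (by omega) g hg

end Pool.Agent.Results.MP_3de5be_an.RealConferencePairs
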